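import Mathlib

open Set Filter FirstOrder Language

namespace Pool.Agent.Results.MP_0a3202_lc.NotConvex

/-- the language with a symbol for every function and every relation on `ℕ` -/
def L : Language := ⟨fun n => (Fin n → ℕ) → ℕ, fun n => Set (Fin n → ℕ)⟩

instance : L.Structure ℕ := ⟨fun f x => f x, fun R x => R x⟩

variable {M : Type} [L.Structure M]

def R1 (A : Set ℕ) : L.Relations 1 := fun v => v 0 ∈ A

def RD : L.Relations 2 := fun v => v 0 ∣ v 1

def F1 (f : ℕ → ℕ) : L.Functions 1 := fun v => f (v 0)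

/-- `x ∈ *A` -/
def Star (A : Set ℕ) (x : M) : Prop := Structure.RelMap (R1 A) ![x]

/-- nonstandard divisibility -/
def SDvd (x y : M) : Prop := Structure.RelMap RD ![x, y]

def monad (M : Type) [L.Structure M] (F : Ultrafilter ℕ) : Set M := {x | ∀ A ∈ F, Star A x}

def app (f : ℕ → ℕ) (x : M) : M := Structure.funMap (F1 f) ![x]

lemma t1 (e : ℕ ↪ₑ[L] M) (A : Set ℕ) (f : ℕ → ℕ) (x : M) (h : Star (f ⁻¹' A) x) :
    Star A (app f x) := by
  have := (e.map_sentence (∀' ((R1 (f ⁻¹' A)).boundedFormula₁ &0 ⟹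
    (R1 A).boundedFormula₁ ((F1 f).apply₁ &0)))).1 (by
      simp only [Sentence.Realize, Formula.Realize, BoundedFormula.realize_all,
        BoundedFormula.realize_imp, BoundedFormula.realize_rel₁, Term.realize_functions_apply₁]
      exact fun a h => h)
  simp only [Sentence.Realize, Formula.Realize, BoundedFormula.realize_all,
    BoundedFormula.realize_imp, BoundedFormula.realize_rel₁, Term.realize_functions_apply₁] at this
  exact this x h

lemma t2 (e : ℕ ↪ₑ[L] M) (f g : ℕ → ℕ) (x : M) (h : Star {n | f n ∣ g n} x) :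
    SDvd (app f x) (app g x) := by
  have := (e.map_sentence (∀' ((R1 {n | f n ∣ g n}).boundedFormula₁ &0 ⟹
    RD.boundedFormula₂ ((F1 f).apply₁ &0) ((F1 g).apply₁ &0)))).1 (by
      simp only [Sentence.Realize, Formula.Realize, BoundedFormula.realize_all,
        BoundedFormula.realize_imp, BoundedFormula.realize_rel₁, BoundedFormula.realize_rel₂,
        Term.realize_functions_apply₁]
      exact fun a h => h)
  simp only [Sentence.Realize, Formula.Realize, BoundedFormula.realize_all,
    BoundedFormula.realize_imp, BoundedFormula.realize_rel₁, BoundedFormula.realize_rel₂,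
    Term.realize_functions_apply₁] at this
  exact this x h

lemma t3 (e : ℕ ↪ₑ[L] M) (A : Set ℕ) (x : M) (h : Star A x) : ¬ Star Aᶜ x := by
  have := (e.map_sentence (∀' ((R1 A).boundedFormula₁ &0 ⟹ ∼((R1 Aᶜ).boundedFormula₁ &0)))).1 (by
      simp only [Sentence.Realize, Formula.Realize, BoundedFormula.realize_all,
        BoundedFormula.realize_imp, BoundedFormula.realize_rel₁, BoundedFormula.realize_not]
      exact fun a h k => k h)
  simp only [Sentence.Realize, Formula.Realize, BoundedFormula.realize_all,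
    BoundedFormula.realize_imp, BoundedFormula.realize_rel₁, BoundedFormula.realize_not] at this
  exact this x h

theorem result : ∀ (M : Type) [L.Structure M], Nonempty (ℕ ↪ₑ[L] M) →
    (∀ F, (monad M F).Nonempty) → ∃ F, {0} ∉ F ∧ ∃ x ∈ monad M F, ∃ y ∈ monad M F, ∃ z,
      SDvd x z ∧ SDvd z y ∧ z ∉ monad M F := by
  intro M _ ⟨e⟩ h
  let U := hyperfilter ℕ
  let W : Ultrafilter ℕ := U.bind fun a => U.map (Nat.pair a)
  obtain ⟨t, ht⟩ := h W
  have u : ∀ {s : Set ℕ}, (∀ n, n ∈ s) → s ∈ U := fun k => univ_mem' (f := (U : Filter ℕ)) k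
  refine ⟨U.map fun a => 4 ^ a, fun k => ?_, app (fun n => 4 ^ n.unpair.1) t, fun A hA =>
    t1 e _ _ _ (ht _ (mem_of_superset (f := (U : Filter ℕ)) hA fun a ha => u fun b => by
      simpa using ha)), app (fun n => 4 ^ n.unpair.2) t, fun A hA => t1 e _ _ _ (ht _ (u fun a =>
      mem_of_superset (f := (U : Filter ℕ)) hA fun b hb => by simpa using hb)),
    app (fun n => 2 * 4 ^ n.unpair.1) t, t2 e _ _ _ (ht _ (u fun a => u fun b => by simp)),
    t2 e _ _ _ (ht _ (u fun a => Nat.hyperfilter_le_atTop ((eventually_gt_atTop a).mono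
      fun b hb => ?_))), fun k => t3 e (range fun a => 4 ^ a) _ (k _ (u fun a => ⟨a, rfl⟩))
      (t1 e _ _ _ (ht _ (u fun a => u fun b => ?_)))⟩
  · obtain ⟨a, ha⟩ := Ultrafilter.nonempty_of_mem (show _ ∈ U from k)
    simp at ha
  · simp only [mem_ofPred_eq, Nat.unpair_pair]
    exact Dvd.dvd.trans ⟨2, by ring⟩ (pow_dvd_pow 4 (show a + 1 ≤ b from hb))
  · rintro ⟨c, hc⟩
    simp only [Nat.unpair_pair] at hc
    have : 2 ^ (2 * c) = 2 ^ (2 * a + 1) := by
      rw [pow_succ, pow_mul, pow_mul]
      norm_num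
      omega
    have := Nat.pow_right_injective le_rfl this
    omega

end Pool.Agent.Results.MP_0a3202_lc.NotConvex
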